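import Mathlib

set_option autoImplicit false

namespace Pool.Agent.Results.MP_771c73_an.Counter

open Finset

variable (𝕂 : Type) [RCLike 𝕂]

abbrev E := lp (fun m : ℕ => (Fin m → Fin 3) → 𝕂) 1

noncomputable def ev (m : ℕ) (w : Fin m → Fin 3) : StrongDual 𝕂 (E 𝕂) :=
  LinearMap.mkContinuous ⟨⟨fun x => x m w, fun _ _ => rfl⟩, fun _ _ => rfl⟩ 1 fun x =>
    ((norm_le_pi_norm (x m) w).trans (lp.norm_apply_le_norm one_ne_zero x m)).trans_eq
      (one_mul _).symm

noncomputable def P {m : ℕ} (w z : Fin m → Fin 3) : 𝕂 :=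
  ∏ j, ((if w j = z j then 1 else 0) - 1 / 3)

noncomputable def S {m : ℕ} (w z : Fin m → Fin 3) : 𝕂 := ∏ j, (if w j = z j then 1 else -1)

theorem PP {m : ℕ} (w z : Fin m → Fin 3) : ∑ v, P 𝕂 w v * P 𝕂 z v = P 𝕂 z w := by
  simp only [P, ← prod_mul_distrib]
  rw [← Fintype.piFinset_univ, ← prod_univ_sum (f := fun j t =>
    (((if w j = t then 1 else 0) - 1 / 3) * ((if z j = t then 1 else 0) - 1 / 3) : 𝕂))]
  refine prod_congr rfl fun j _ => ?_
  generalize w j = a, z j = b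
  fin_cases a <;> fin_cases b <;> simp [Fin.sum_univ_three] <;> norm_num

theorem PS {m : ℕ} (w z : Fin m → Fin 3) : ∑ v, P 𝕂 v w * S 𝕂 v z = 2 ^ m * P 𝕂 w z := by
  simp only [P, S, ← prod_mul_distrib]
  rw [← Fintype.piFinset_univ, ← prod_univ_sum (f := fun j t =>
    (((if t = w j then 1 else 0) - 1 / 3) * (if t = z j then 1 else -1) : 𝕂)),
    ← Fin.prod_const, ← prod_mul_distrib]
  refine prod_congr rfl fun j _ => ?_
  generalize w j = a, z j = b
  fin_cases a <;> fin_cases b <;> simp [Fin.sum_univ_three] <;> norm_num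

theorem result : ∃ (E : Type) (_ : NormedAddCommGroup E) (_ : NormedSpace 𝕂 E),
    CompleteSpace E ∧ TopologicalSpace.SeparableSpace E ∧
    ∃ G : Submodule 𝕂 E, IsClosed (G : Set E) ∧
    ∃ φ : ℕ → StrongDual 𝕂 G, (∃ C, ∀ n, ‖φ n‖ ≤ C) ∧
    ∀ f : ℕ → StrongDual 𝕂 E, (∀ n (g : G), f n g = φ n g) → (∃ C, ∀ n, ‖f n‖ ≤ C) →
      ¬ Dense {x : E | ∃ g ∈ G, ∃ y, (∀ n, f n y = 0) ∧ x = g + y} := by
  obtain ⟨e, he⟩ := exists_surjective_nat (Σ m : ℕ, Fin m → Fin 3)
  let G : Submodule 𝕂 (E 𝕂) := ⨅ m, ⨅ w, (ev 𝕂 m w - ∑ v, P 𝕂 w v • ev 𝕂 m v).ker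
  have hG : ∀ x, x ∈ G ↔ ∀ m w, x m w = ∑ v, P 𝕂 w v * x m v := fun x => by
    simp only [G, Submodule.mem_iInf, LinearMap.mem_ker, ContinuousLinearMap.coe_coe,
      sub_apply, _root_.sum_apply, sub_eq_zero]
    rfl
  refine ⟨E 𝕂, inferInstance, inferInstance, inferInstance, ?_, G, ?_,
    fun n => (ev 𝕂 (e n).1 (e n).2).comp G.subtypeL, ⟨1, fun n => ?_⟩, fun f hf ⟨C, hC⟩ d => ?_⟩
  · have := TopologicalSpace.IsSeparable.iUnion fun m => TopologicalSpace.isSeparable_range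
      (lp.isometry_single (E := fun m : ℕ => (Fin m → Fin 3) → 𝕂) (p := 1) m).continuous
    refine TopologicalSpace.isSeparable_univ_iff.mp ((this.span (R := 𝕂)).closure.mono
      fun x _ => mem_closure_of_tendsto (lp.hasSum_single (by simp) x) (.of_forall fun s =>
        sum_mem fun m _ => Submodule.subset_span (Set.mem_iUnion.mpr ⟨m, _, rfl⟩)))
  · simp only [G, Submodule.coe_iInf]
    exact isClosed_iInter fun m => isClosed_iInter fun w => ContinuousLinearMap.isClosed_ker _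
  · exact ContinuousLinearMap.opNorm_le_bound _ zero_le_one fun x =>
      (ev 𝕂 _ _).le_of_opNorm_le (LinearMap.mkContinuous_norm_le _ zero_le_one _) x.1
  choose i hi using he
  have a : ∀ m w, ∀ g ∈ G, f (i ⟨m, w⟩) g = g m w := fun m w g c => by
    rw [hf _ ⟨g, c⟩]
    show g (e _).1 (e _).2 = _
    rw [hi]
  have b : ∀ m w, f (i ⟨m, w⟩) = ∑ v, P 𝕂 w v • f (i ⟨m, v⟩) := fun m w =>
    DFunLike.coe_injective (Continuous.ext_on d (by fun_prop) (by fun_prop) (by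
      rintro _ ⟨g, c, y, h, rfl⟩
      simp [h, a _ _ g c, ← (hG g).mp c]))
  obtain ⟨m, hm⟩ := pow_unbounded_of_one_lt C (show (1 : ℝ) < 4 / 3 by norm_num)
  have s : ∀ w : Fin m → Fin 3, lp.single 1 m (P 𝕂 w) ∈ G := fun w => (hG _).mpr fun k z => by
    by_cases c : k = m
    · subst c
      simp [PP]
    · simp [Pi.single_eq_of_ne c]
  have t : ∀ w : Fin m → Fin 3, ∑ v, P 𝕂 v w • (lp.single 1 m (S 𝕂 v) : E 𝕂) =
      (2 : 𝕂) ^ m • lp.single 1 m (P 𝕂 w) := fun w => by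
    rw [← lp.single_smul, show (2 : 𝕂) ^ m • P 𝕂 w = ∑ v, P 𝕂 v w • S 𝕂 v from
      funext fun z => by simp [PS]]
    simp only [← lp.single_smul]
    exact (map_sum (lp.singleAddMonoidHom (E := fun m : ℕ => (Fin m → Fin 3) → 𝕂) 1 m) _ _).symm
  have u : ∑ v, f (i ⟨m, v⟩) (lp.single 1 m (S 𝕂 v)) = 4 ^ m := by
    rw [sum_congr rfl fun v _ => by rw [b, _root_.sum_apply], sum_comm]
    simp only [smul_apply, ← map_smul, ← map_sum, t]
    simp only [map_smul, a _ _ _ (s _), lp.single_apply_self, P]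
    simp [← mul_pow]
    norm_num
  have := (norm_sum_le _ _).trans (sum_le_card_nsmul univ _ C fun v _ =>
    ((f (i ⟨m, v⟩)).le_of_opNorm_le (hC _) (lp.single 1 m (S 𝕂 v))).trans (mul_le_of_le_one_right
      ((norm_nonneg _).trans (hC 0)) (by
        rw [lp.norm_single one_pos]
        exact (pi_norm_le_iff_of_nonneg zero_le_one).mpr fun z => by
          simp [S, apply_ite norm])))
  rw [u] at this
  rw [div_pow, lt_div_iff₀' (by positivity)] at hm
  simp at this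
  linarith

end Pool.Agent.Results.MP_771c73_an.Counter
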